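import Mathlib

set_option autoImplicit false

namespace Pool.Agent.H399.FieldK

open Cardinal

universe u v w

/-- A countable extension of a countable field embeds in any uncountable algebraically
closed extension. -/
theorem exists_algHom_of_countable {K : Type u} {L : Type v} {Om : Type w} [Field K] [Field L]
    [Field Om] [Algebra K L] [Algebra K Om] [IsAlgClosed Om] [Countable K] [Countable L]
    (hOm : ℵ₀ < #Om) : Nonempty (L →ₐ[K] Om) := by
  classical
  obtain ⟨s, hs⟩ := exists_isTranscendenceBasis K L
  obtain ⟨t, ht⟩ := exists_isTranscendenceBasis K Om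
  have h1 := IsAlgClosed.cardinal_eq_cardinal_transcendence_basis_of_aleph0_lt _ ht
    (by exact Cardinal.mk_le_aleph0_iff.2 inferInstance) hOm
  have h2 : ℵ₀ ≤ #t := by
    have h3 : #Om = #t := by simpa using h1
    rw [← h3]; exact hOm.le
  have h3 : Countable s := inferInstance
  have h4 : Infinite t := Cardinal.infinite_iff.2 h2
  obtain ⟨f⟩ : Nonempty (s ↪ t) := by
    obtain ⟨g, hg⟩ := exists_injective_nat s
    exact ⟨⟨fun a => Infinite.natEmbedding t (g a), fun a b hab => hg ((Infinite.natEmbedding t).injective hab)⟩⟩
  have hf : AlgebraicIndependent K (fun a : s => ((f a : t) : Om)) :=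
    ht.1.comp f f.injective
  let B := Algebra.adjoin K (Set.range ((↑) : s → L))
  let e : MvPolynomial s K ≃ₐ[K] B := hs.1.aevalEquiv
  let g : MvPolynomial s K →ₐ[K] Om := MvPolynomial.aeval (fun a : s => ((f a : t) : Om))
  have hg : Function.Injective g := hf
  let h : B →ₐ[K] Om := g.comp e.symm.toAlgHom
  have hh : Function.Injective h := hg.comp e.symm.injective
  letI : Algebra B Om := h.toRingHom.toAlgebra
  haveI : IsScalarTower K B Om := IsScalarTower.of_algebraMap_eq (fun r => (h.commutes r).symm)
  haveI : Algebra.IsAlgebraic B L := hs.isAlgebraic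
  haveI : FaithfulSMul B Om := (faithfulSMul_iff_algebraMap_injective B Om).2 hh
  let j : L →ₐ[B] Om := IsAlgClosed.lift
  exact ⟨j.restrictScalars K⟩

end Pool.Agent.H399.FieldK
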