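import Pool.Agent.H399.FieldK2

set_option autoImplicit false

namespace Pool.Agent.H399.FieldK

open Cardinal

universe u v w

/-- `X` is not a cube in a rational function field. -/
theorem ratFunc_X_not_cube (F : Type u) [Field F] (r : RatFunc F) : r ^ 3 ≠ RatFunc.X := by
  intro h
  have hr : r ≠ 0 := by
    rintro rfl
    rw [zero_pow (by norm_num)] at h
    exact RatFunc.X_ne_zero h.symm
  have h1 : (r ^ 3).intDegree = 3 * r.intDegree := by
    have h2 : r ^ 3 = r * (r * r) := by ring
    rw [h2, RatFunc.intDegree_mul hr (mul_ne_zero hr hr), RatFunc.intDegree_mul hr hr]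
    ring
  rw [h, RatFunc.intDegree_X] at h1
  omega

/-- The starting field. -/
theorem exists_good : ∃ (z x : ℂ) (K : Subfield ℂ), IsPrimitiveRoot z 3 ∧ Good z x K := by
  classical
  let A := AlgebraicClosure ℚ
  have hA : Countable A := by
    rw [← Cardinal.mk_le_aleph0_iff]
    have halg : Algebra.IsAlgebraic ℚ (AlgebraicClosure ℚ) := by
      refine ⟨fun a => ?_⟩
      obtain ⟨p, hp, hpa⟩ := (AlgebraicClosure.isAlgebraic ℚ).isAlgebraic a
      refine ⟨p, hp, ?_⟩
      rw [← hpa, Polynomial.aeval_def, Polynomial.aeval_def]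
      congr 1
    have := Algebra.IsAlgebraic.cardinalMk_le_max ℚ (AlgebraicClosure ℚ)
    refine this.trans ?_
    simp
  have hP : Countable (Polynomial A) := by
    rw [← Cardinal.mk_le_aleph0_iff]
    refine (Polynomial.cardinalMk_le_max).trans ?_
    simp
  have hR : Countable (RatFunc A) := by
    have : Function.Surjective (fun pq : Polynomial A × Polynomial A =>
        algebraMap (Polynomial A) (RatFunc A) pq.1 / algebraMap (Polynomial A) (RatFunc A) pq.2) := by
      intro r
      exact ⟨(r.num, r.denom), RatFunc.num_div_denom r⟩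
    exact this.countable
  obtain ⟨f⟩ := exists_algHom_of_countable (K := ℚ) (L := RatFunc A) (Om := ℂ)
    (by rw [Cardinal.mk_complex]; exact Cardinal.aleph0_lt_continuum)
  have h3 : NeZero ((3 : ℕ) : A) := ⟨by norm_num⟩
  obtain ⟨ζ, hζ⟩ := HasEnoughRootsOfUnity.exists_primitiveRoot A 3
  have hinj : Function.Injective f := f.toRingHom.injective
  refine ⟨f (algebraMap A (RatFunc A) ζ), f RatFunc.X, f.toRingHom.fieldRange, ?_, ?_, ?_, ?_, ?_⟩
  · exact (hζ.map_of_injective (algebraMap A (RatFunc A)).injective).map_of_injective hinj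
  · exact ⟨_, rfl⟩
  · exact ⟨_, rfl⟩
  · have : ((f.toRingHom.fieldRange : Subfield ℂ) : Set ℂ) = Set.range f := by
      ext a; simp
    rw [this]
    exact Set.countable_range f
  · rintro _ ⟨r, rfl⟩ h
    have h' : f (r ^ 3) = f RatFunc.X := by rw [map_pow]; exact h
    exact ratFunc_X_not_cube A r (hinj h')

/-- MODULE K: the field `k`. -/
theorem exists_fieldK : ∃ (k : Type) (_ : Field k) (_ : CharZero k) (z x : k),
    Countable k ∧ IsPrimitiveRoot z 3 ∧ (∀ r : k, r ^ 3 ≠ x) ∧
    ∀ (κ : Type u) [Field κ] [Algebra k κ], (∀ r : κ, r ^ 3 ≠ algebraMap k κ x) →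
      ∀ R : Subalgebra k κ, R.FG → Nonempty (R →ₐ[k] k) := by
  classical
  obtain ⟨z, x, K, hz, hK⟩ := exists_good
  obtain ⟨k, hKk, hk, hec⟩ := exists_ec K hK
  have hcount : Countable k := hk.count.to_subtype
  refine ⟨k, inferInstance, inferInstance, ⟨z, hk.z_mem⟩, ⟨x, hk.x_mem⟩, hcount, ?_, ?_, ?_⟩
  · exact IsPrimitiveRoot.of_map_of_injective (f := k.subtype) (by exact hz) k.subtype.injective
  · intro r hr
    exact hk.nocube r r.2 (congrArg Subtype.val hr)
  · intro κ _ _ hκ R hR
    obtain ⟨s, hs⟩ := hR
    -- generators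
    let m := s.card
    let g : Fin m → κ := fun i => (s.equivFin.symm i : κ)
    have hg : Set.range g = (s : Set κ) := by
      ext a
      constructor
      · rintro ⟨i, rfl⟩
        exact (s.equivFin.symm i).2
      · intro ha
        exact ⟨s.equivFin ⟨a, ha⟩, by simp [g]⟩
    have hR' : R = (MvPolynomial.aeval (R := k) g).range := by
      rw [← Algebra.adjoin_range_eq_range_aeval, hg, hs]
    -- the ideal of relations
    let I : Ideal (MvPolynomial (Fin m) k) := RingHom.ker (MvPolynomial.aeval (R := k) g)
    obtain ⟨S, hS⟩ : I.FG := IsNoetherian.noetherian I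
    -- the subfield k(g)
    let L : IntermediateField k κ := IntermediateField.adjoin k (Set.range g)
    have hLc : Countable L := by
      rw [← Cardinal.mk_le_aleph0_iff, ← Cardinal.lift_le_aleph0.{_, 0}]
      refine (IntermediateField.lift_cardinalMk_adjoin_le k (Set.range g)).trans ?_
      simp
    obtain ⟨f⟩ := exists_algHom_of_countable (K := k) (L := L) (Om := ℂ)
      (by rw [Cardinal.mk_complex]; exact Cardinal.aleph0_lt_continuum)
    have hinj : Function.Injective f := f.toRingHom.injective
    have hgL : ∀ i, g i ∈ L := fun i => IntermediateField.subset_adjoin _ _ ⟨i, rfl⟩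
    have hker : ∀ p ∈ I, MvPolynomial.aeval (fun i => f ⟨g i, hgL i⟩) p = 0 := by
      intro p hp
      have h1 : MvPolynomial.aeval g p = 0 := hp
      have h2 : MvPolynomial.aeval (fun i => (⟨g i, hgL i⟩ : L)) p = 0 := by
        apply L.val.toRingHom.injective
        have h3 : L.val (MvPolynomial.aeval (fun i => (⟨g i, hgL i⟩ : L)) p) =
            MvPolynomial.aeval g p := by
          have := MvPolynomial.comp_aeval_apply (R := k) (fun i => (⟨g i, hgL i⟩ : L)) L.val p
          exact this
        exact (h3.trans h1).trans (map_zero _).symm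
      have h4 : f (MvPolynomial.aeval (fun i => (⟨g i, hgL i⟩ : L)) p) =
          MvPolynomial.aeval (fun i => f ⟨g i, hgL i⟩) p :=
        MvPolynomial.comp_aeval_apply (R := k) (fun i => (⟨g i, hgL i⟩ : L)) f p
      rw [← h4, h2, map_zero]
    obtain ⟨c, hc⟩ := hec m S ⟨f.toRingHom.fieldRange, fun i => f ⟨g i, hgL i⟩, by
        intro a ha
        exact ⟨algebraMap k L ⟨a, ha⟩, f.commutes ⟨a, ha⟩⟩, by
        refine ⟨?_, ?_, ?_, ?_⟩
        · exact ⟨algebraMap k L ⟨z, hk.z_mem⟩, f.commutes ⟨z, hk.z_mem⟩⟩
        · exact ⟨algebraMap k L ⟨x, hk.x_mem⟩, f.commutes ⟨x, hk.x_mem⟩⟩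
        · have : ((f.toRingHom.fieldRange : Subfield ℂ) : Set ℂ) = Set.range f := by
            ext a; simp
          rw [this]
          exact Set.countable_range f
        · rintro _ ⟨r, rfl⟩ h
          have h' : f (r ^ 3) = f (algebraMap k L ⟨x, hk.x_mem⟩) := by
            rw [map_pow, f.commutes]
            exact h
          have h5 := hinj h'
          apply hκ (r : κ)
          have h6 := congrArg (fun a : L => (a : κ)) h5
          simpa using h6, by
        intro i; exact ⟨_, rfl⟩, by
        intro p hp
        apply hker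
        rw [← hS]
        exact Submodule.subset_span hp⟩
    have hle : ∀ p ∈ I, MvPolynomial.aeval c p = 0 := by
      intro p hp
      have h1 : I ≤ RingHom.ker (MvPolynomial.aeval (R := k) c) := by
        rw [← hS]
        exact Submodule.span_le.2 fun q hq => hc q hq
      exact h1 hp
    -- the homomorphism on R
    subst hR'
    have hsurj : Function.Surjective (MvPolynomial.aeval (R := k) g).rangeRestrict :=
      AlgHom.rangeRestrict_surjective _
    refine ⟨AlgHom.liftOfSurjective (MvPolynomial.aeval (R := k) g).rangeRestrict hsurj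
      (MvPolynomial.aeval c) ?_⟩
    intro p hp
    apply hle
    have h1 : (MvPolynomial.aeval (R := k) g).rangeRestrict p = 0 := hp
    have h2 := congrArg Subtype.val h1
    exact h2

end Pool.Agent.H399.FieldK
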